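import Pool.Agent.PLX.StmtsA
import Pool.Agent.Helper46_PLG.GRO

/-!
Squad PLX (MP_1fc801_co), row GRU: growth.
-/

set_option autoImplicit false

namespace Pool.Agent.PLX.H46

open Module MeasureTheory Metric

theorem f_span {A : Type} [AddCommGroup A] [Module ℚ A] {E : Type} [NormedAddCommGroup E]
    [NormedSpace ℝ E] (f : A →+ E) {ι : Type}
    (x : ι → A) {z : A} (hz : z ∈ Submodule.span ℚ (Set.range x)) :
    f z ∈ Submodule.span ℝ (Set.range fun i => f (x i)) := by
  refine Submodule.span_induction (p := fun z _ => f z ∈ Submodule.span ℝ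
    (Set.range fun i => f (x i))) ?_ ?_ ?_ ?_ hz
  · rintro _ ⟨i, rfl⟩
    exact Submodule.subset_span ⟨i, rfl⟩
  · rw [map_zero]
    exact Submodule.zero_mem _
  · intro a b _ _ ha hb
    rw [map_add]
    exact Submodule.add_mem _ ha hb
  · intro c a _ ha
    rw [f_rat]
    exact Submodule.smul_mem _ _ ha

theorem gru (hrnk : RnkStmt) : GruStmt := by
  intro A _ _ E _ _ f V k ρ r R hV hρ hρr hr hd _
  classical
  have hr0 : 0 < r := lt_of_lt_of_le hρ hρr
  have hd0 : (0 : ℝ) ≤ k := Nat.cast_nonneg _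
  have hfd : FiniteDimensional ℚ (Submodule.span ℚ (bl f V ρ : Set A)) :=
    FiniteDimensional.span_of_finite ℚ (Finset.finite_toSet _)
  obtain ⟨x, hx1, hx2, hx3⟩ :=
    Submodule.exists_fun_fin_finrank_span_eq ℚ (bl f V ρ : Set A)
  change finrank ℚ (Submodule.span ℚ (bl f V ρ : Set A)) = k at hd
  generalize hn : finrank ℚ (Submodule.span ℚ (bl f V ρ : Set A)) = n at x hx1 hx2 hx3 hd
  subst hd
  have hxG : ∀ i, x i ∈ V ∧ ‖f (x i)‖ ≤ ρ := fun i => (mem_bl hV).1 (hx1 i)
  have hnρ : (n : ℝ) * ρ ≤ n * r := mul_le_mul_of_nonneg_left hρr hd0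
  have hnr : 8 * ((n : ℝ) * r) ≤ R := by nlinarith
  have hrR : 8 * r ≤ R := by nlinarith
  have hR0 : 0 < R := by linarith
  set F : Submodule ℝ E := Submodule.span ℝ (Set.range fun i => f (x i)) with hF
  have hFfd : FiniteDimensional ℝ F := FiniteDimensional.span_of_finite ℝ (Set.finite_range _)
  have hfF : ∀ z ∈ bs f V ρ, f z ∈ F := by
    intro z hz
    apply f_span
    rw [hx2]
    exact hz
  have hxM : ∀ i, x i ∈ bs f V ρ := fun i => Submodule.subset_span (hx1 i)
  -- the dimension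
  have hk : n ≤ finrank ℝ F := by
    have h1 := hrnk A E f V ρ hV
    have h2 : finrank ℚ (bs f V ρ) = n := hn
    rw [h2] at h1
    refine h1.trans (Submodule.finrank_mono ?_)
    rw [Submodule.span_le]
    rintro _ ⟨z, hz, rfl⟩
    exact hfF z (Submodule.subset_span hz)
  -- approximation
  have happ : ∀ w ∈ F, ∃ z ∈ V, z ∈ bs f V ρ ∧ ‖w - f z‖ ≤ n * ρ := by
    intro w hw
    rw [hF, Submodule.mem_span_range_iff_exists_fun] at hw
    obtain ⟨c, rfl⟩ := hw
    refine ⟨∑ i, ⌊c i⌋ • x i, ?_, ?_, ?_⟩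
    · exact V.sum_mem fun i _ => V.zsmul_mem (hxG i).1 _
    · refine Submodule.sum_mem _ fun i _ => ?_
      have h1 : ⌊c i⌋ • x i = ((⌊c i⌋ : ℤ) : ℚ) • x i := (Int.cast_smul_eq_zsmul ℚ _ _).symm
      rw [h1]
      exact Submodule.smul_mem _ _ (hxM i)
    · rw [map_sum, ← Finset.sum_sub_distrib]
      refine (norm_sum_le _ _).trans ?_
      have h1 : ∀ i ∈ (Finset.univ : Finset (Fin n)), ‖c i • f (x i) - f (⌊c i⌋ • x i)‖ ≤ ρ := by
        intro i _
        rw [f_int, ← sub_smul, norm_smul, Real.norm_eq_abs]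
        have h2 : |c i - (⌊c i⌋ : ℝ)| ≤ 1 := by
          have h3 := Int.floor_le (c i)
          have h4 := Int.lt_floor_add_one (c i)
          rw [abs_le]
          constructor <;> linarith
        calc |c i - (⌊c i⌋ : ℝ)| * ‖f (x i)‖ ≤ 1 * ρ :=
              mul_le_mul h2 (hxG i).2 (norm_nonneg _) zero_le_one
          _ = ρ := one_mul ρ
      have h5 := Finset.sum_le_card_nsmul _ _ _ h1
      rw [Finset.card_univ, Fintype.card_fin, nsmul_eq_mul] at h5
      exact h5
  -- the maximal separated set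
  obtain ⟨Y, hYB, hY1, hY2⟩ := PLG.H46.exists_sep
    ((bl f V (R / 2)).filter fun z => z ∈ bs f V ρ) (fun u v => ‖f (u - v)‖) (2 * r)
    (by positivity) (fun u _ => by simp) (fun u v => by
      show ‖f (u - v)‖ = ‖f (v - u)‖
      rw [← neg_sub v u, map_neg, norm_neg])
  have hYG : ∀ y ∈ Y, y ∈ V ∧ ‖f y‖ ≤ R / 2 ∧ y ∈ bs f V ρ := fun y hy => by
    have h1 := Finset.mem_filter.1 (hYB hy)
    have h2 := (mem_bl hV).1 h1.1
    exact ⟨h2.1, h2.2, h1.2⟩
  -- packing
  have hpack : (Y.card : ℝ) * cnt f V r ≤ cnt f V R := by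
    have hinj : Set.InjOn (fun p : A × A => p.1 + p.2) (Y ×ˢ bl f V r : Finset (A × A)) := by
      rintro ⟨y, u⟩ h1 ⟨y', u'⟩ h2 h3
      rw [Finset.mem_coe, Finset.mem_product] at h1 h2
      simp only at h1 h2 h3
      by_cases hyy : y = y'
      · subst hyy
        have := add_left_cancel h3
        rw [this]
      · exfalso
        have h4 := hY1 y h1.1 y' h2.1 hyy
        have h5 : y - y' = u' - u := by
          rw [sub_eq_sub_iff_add_eq_add, h3, add_comm]
        have h6 := ((mem_bl hV).1 h1.2).2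
        have h7 := ((mem_bl hV).1 h2.2).2
        simp only [h5] at h4
        rw [map_sub] at h4
        have := norm_sub_le (f u') (f u)
        linarith
    have hsub : (Y ×ˢ bl f V r).image (fun p : A × A => p.1 + p.2) ⊆ bl f V R := by
      intro z hz
      rw [Finset.mem_image] at hz
      obtain ⟨p, hp, rfl⟩ := hz
      rw [Finset.mem_product] at hp
      have h1 := add_mem_bl hV (Finset.mem_filter.1 (hYB hp.1)).1 hp.2
      refine bl_mono hV ?_ h1
      linarith
    have hc := Finset.card_le_card hsub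
    rw [Finset.card_image_of_injOn hinj, Finset.card_product] at hc
    exact_mod_cast hc
  -- volumes
  have hvol : (R / 2 - n * ρ) ^ finrank ℝ F ≤
      (Y.card : ℝ) * (2 * r + n * ρ) ^ finrank ℝ F := by
    have h1 := PLG.H46.cover_card (F := F)
      (Y.attach.image fun y => (⟨f y.1, hfF y.1 (hYG y.1 y.2).2.2⟩ : F))
      (R / 2 - n * ρ) (2 * r + n * ρ) (by linarith) (by positivity) ?_
    · refine h1.trans (mul_le_mul_of_nonneg_right ?_ (by positivity))
      have h2 := Finset.card_image_le (s := Y.attach)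
        (f := fun y => (⟨f y.1, hfF y.1 (hYG y.1 y.2).2.2⟩ : F))
      rw [Finset.card_attach] at h2
      exact_mod_cast h2
    · intro w hw
      obtain ⟨z, hz, hzM, hwz⟩ := happ w.1 w.2
      have hw' : ‖(w : E)‖ ≤ R / 2 - n * ρ := hw
      have hz2 : ‖f z‖ ≤ R / 2 := by
        have h3 : ‖f z‖ ≤ ‖(w : E)‖ + ‖(w : E) - f z‖ := by
          have h4 : f z = (w : E) - ((w : E) - f z) := by abel
          calc ‖f z‖ = ‖(w : E) - ((w : E) - f z)‖ := by rw [← h4]
            _ ≤ ‖(w : E)‖ + ‖(w : E) - f z‖ := norm_sub_le _ _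
        linarith
      obtain ⟨y, hy, hzy⟩ := hY2 z (Finset.mem_filter.2 ⟨(mem_bl hV).2 ⟨hz, hz2⟩, hzM⟩)
      refine ⟨⟨f y, hfF y (hYG y hy).2.2⟩, ?_, ?_⟩
      · rw [Finset.mem_image]
        exact ⟨⟨y, hy⟩, Finset.mem_attach _ _, rfl⟩
      · show ‖(w : E) - f y‖ ≤ _
        have h5 : (w : E) - f y = ((w : E) - f z) + f (z - y) := by
          rw [map_sub]
          abel
        rw [h5]
        refine (norm_add_le _ _).trans ?_
        have h6 : ‖f (z - y)‖ ≤ 2 * r := hzy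
        linarith
  -- the end
  set m := finrank ℝ F with hmdef
  have hq0 : 0 < 4 * ((n : ℝ) + 2) * r := by positivity
  have hqR : 4 * ((n : ℝ) + 2) * r ≤ R := by nlinarith
  have hv1 : (R / 4) ^ m ≤ (Y.card : ℝ) * (((n : ℝ) + 2) * r) ^ m := by
    calc (R / 4) ^ m ≤ (R / 2 - n * ρ) ^ m :=
          pow_le_pow_left₀ (by linarith) (by linarith) _
      _ ≤ (Y.card : ℝ) * (2 * r + n * ρ) ^ m := hvol
      _ ≤ (Y.card : ℝ) * (((n : ℝ) + 2) * r) ^ m := by
          apply mul_le_mul_of_nonneg_left _ (Nat.cast_nonneg _)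
          apply pow_le_pow_left₀ (by positivity)
          linarith
  have hv2 : R ^ m ≤ (Y.card : ℝ) * (4 * ((n : ℝ) + 2) * r) ^ m := by
    have h1 : (4 : ℝ) ^ m * (R / 4) ^ m = R ^ m := by
      rw [← mul_pow]
      congr 1
      ring
    have h2 : (Y.card : ℝ) * (4 * ((n : ℝ) + 2) * r) ^ m =
        4 ^ m * ((Y.card : ℝ) * (((n : ℝ) + 2) * r) ^ m) := by
      rw [mul_assoc 4, mul_pow]
      ring
    rw [h2, ← h1]
    exact mul_le_mul_of_nonneg_left hv1 (by positivity)
  have hv3 : R ^ n ≤ (Y.card : ℝ) * (4 * ((n : ℝ) + 2) * r) ^ n := by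
    have h1 : (R / (4 * ((n : ℝ) + 2) * r)) ^ n ≤ (R / (4 * ((n : ℝ) + 2) * r)) ^ m :=
      pow_le_pow_right₀ ((one_le_div hq0).2 hqR) hk
    have h2 : (R / (4 * ((n : ℝ) + 2) * r)) ^ m ≤ (Y.card : ℝ) := by
      rw [div_pow, div_le_iff₀ (pow_pos hq0 _)]
      exact hv2
    have h3 := h1.trans h2
    rw [div_pow, div_le_iff₀ (pow_pos hq0 _)] at h3
    exact h3
  calc R ^ n * (cnt f V r : ℝ)
      ≤ ((Y.card : ℝ) * (4 * ((n : ℝ) + 2) * r) ^ n) * cnt f V r :=
        mul_le_mul_of_nonneg_right hv3 (Nat.cast_nonneg _)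
    _ = (4 * ((n : ℝ) + 2) * r) ^ n * ((Y.card : ℝ) * cnt f V r) := by ring
    _ ≤ (4 * ((n : ℝ) + 2) * r) ^ n * cnt f V R :=
        mul_le_mul_of_nonneg_left hpack (by positivity)

end Pool.Agent.PLX.H46
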